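import Pool.Agent.Lib.MP_f00b8a_ag.Final

set_option autoImplicit false

/-!
# MP_f00b8a_ag: no grid and no half grid is arithmetically Gorenstein

Let `Z` be a set of points of `ℙ³` over `ℂ` that consists of `m` points on each of `r` pairwise
skew lines, `r, m ≥ 2`. If `r ≤ m`, or if `Z` is geproci of type `(m, r)` or `(r, m)`, then `Z` is
not arithmetically Gorenstein.

An `(a, b)`-geproci set which lies on `a` pairwise skew lines with `b` points on each, or on `b`
pairwise skew lines with `a` points on each, is a grid or a half grid. So no geproci set of this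
kind is arithmetically Gorenstein.

`ℙⁿ` is `Projectivization ℂ (Fin (n + 1) → ℂ)`. For a homogeneous polynomial `f` the condition
`eval p.rep f = 0` says that `f` vanishes at the point `p`.
-/

namespace Pool.Agent.Results.MP_f00b8a_ag.NoHalfGrid

open MvPolynomial

/-- The homogeneous ideal of a set of points of `ℙⁿ⁻¹`: the ideal generated by the forms (of any
degree) that vanish at all points of the set. -/
noncomputable def homIdeal {n : ℕ} (S : Set (Projectivization ℂ (Fin n → ℂ))) :
    Ideal (MvPolynomial (Fin n) ℂ) :=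
  Ideal.span {f | (∃ d, f.IsHomogeneous d) ∧ ∀ p ∈ S, eval p.rep f = 0}

/-- The socle of `ℂ[x₀, x₁, x₂, x₃] / J`: the elements that are killed by all variables. -/
noncomputable def socle (J : Ideal (MvPolynomial (Fin 4) ℂ)) :
    Submodule ℂ (MvPolynomial (Fin 4) ℂ ⧸ J) where
  carrier := {x | ∀ i, Ideal.Quotient.mk J (X i) * x = 0}
  add_mem' := by
    intro x y hx hy i
    rw [mul_add, hx i, hy i, add_zero]
  zero_mem' := by
    intro i
    rw [mul_zero]
  smul_mem' := by
    intro c x hx i
    rw [mul_smul_comm, hx i, smul_zero]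

/-- A set of points of `ℙ³` is arithmetically Gorenstein: for a linear form `l` that vanishes at
no point of the set (so that `l` is a nonzerodivisor modulo the homogeneous ideal `I(Z)`, and
`ℂ[x₀, x₁, x₂, x₃] / (I(Z) + (l))` is the artinian reduction) the socle of
`ℂ[x₀, x₁, x₂, x₃] / (I(Z) + (l))` has dimension one over `ℂ`. -/
def IsArithGorenstein (Z : Set (Projectivization ℂ (Fin 4 → ℂ))) : Prop :=
  ∃ l : MvPolynomial (Fin 4) ℂ, l.IsHomogeneous 1 ∧ (∀ p ∈ Z, eval p.rep l ≠ 0) ∧
    Module.finrank ℂ (socle (homIdeal Z ⊔ Ideal.span {l})) = 1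

/-- A set of points of the plane `ℙ²` is a (reduced) complete intersection of type `(a, b)`: its
homogeneous ideal is generated by two nonzero forms of degrees `a` and `b`. -/
def IsPlaneCI (S : Set (Projectivization ℂ (Fin 3 → ℂ))) (a b : ℕ) : Prop :=
  ∃ F G : MvPolynomial (Fin 3) ℂ, F.IsHomogeneous a ∧ G.IsHomogeneous b ∧ F ≠ 0 ∧ G ≠ 0 ∧
    homIdeal S = Ideal.span {F, G}

/-- The image of a set of points of `ℙ³` under the projection to `ℙ²` given by a linear map `π`
(the centre of the projection is the kernel of `π`). -/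
def projImage (π : (Fin 4 → ℂ) →ₗ[ℂ] (Fin 3 → ℂ)) (Z : Set (Projectivization ℂ (Fin 4 → ℂ))) :
    Set (Projectivization ℂ (Fin 3 → ℂ)) :=
  {q | ∃ p ∈ Z, ∃ h : π p.rep ≠ 0, q = Projectivization.mk ℂ (π p.rep) h}

/-- A set of points of `ℙ³` is `(a, b)`-geproci: for a general point `P` (that is, for all `P` at
which some fixed nonzero polynomial `Φ` does not vanish) the image of the set under the projection
from `P` to a plane is a complete intersection of type `(a, b)`. -/
def IsGeproci (Z : Set (Projectivization ℂ (Fin 4 → ℂ))) (a b : ℕ) : Prop :=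
  ∃ Φ : MvPolynomial (Fin 4) ℂ, Φ ≠ 0 ∧ ∀ P : Fin 4 → ℂ, eval P Φ ≠ 0 →
    ∀ π : (Fin 4 → ℂ) →ₗ[ℂ] (Fin 3 → ℂ), LinearMap.ker π = Submodule.span ℂ {P} →
      IsPlaneCI (projImage π Z) a b

/-- `Z` consists of `m` points on each of `r` pairwise skew lines of `ℙ³`. -/
def OnSkewLines (Z : Set (Projectivization ℂ (Fin 4 → ℂ))) (r m : ℕ) : Prop :=
  ∃ L : Fin r → Submodule ℂ (Fin 4 → ℂ), (∀ i, Module.finrank ℂ (L i) = 2) ∧
    (∀ i j, i ≠ j → Disjoint (L i) (L j)) ∧ (∀ p ∈ Z, ∃ i, p.submodule ≤ L i) ∧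
    ∀ i, {p ∈ Z | p.submodule ≤ L i}.ncard = m

/-- **No grid and no half grid is arithmetically Gorenstein.** -/
theorem result (Z : Set (Projectivization ℂ (Fin 4 → ℂ))) (r m : ℕ) (hr : 2 ≤ r) (hm : 2 ≤ m)
    (hZ : OnSkewLines Z r m) (hg : r ≤ m ∨ IsGeproci Z m r ∨ IsGeproci Z r m) :
    ¬ IsArithGorenstein Z :=
  Pool.Agent.MPf00b8a.main hr hm hZ hg

end Pool.Agent.Results.MP_f00b8a_ag.NoHalfGrid
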